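import Pool.Agent.Q27.CD.Main

/-!
# Upper bounds for the conjugacy depth of `F_p ≀ ℤ^k` and `ℤ ≀ ℤ^k`

`Wr R (Fin k → ℤ)` is the restricted wreath product `R ≀ ℤ^k`: its elements are the pairs `(f, b)`
with `f ∈ R[ℤ^k]` (finitely supported functions `ℤ^k → R`, field `lamp`) and `b ∈ ℤ^k` (field
`pos`), with the product `(f, b) (g, c) = (f + X^b g, b + c)`.
-/

set_option autoImplicit false

namespace Pool.Agent.Results.MP_3fb3e0_al.DepthBounds

open Q27.CD Finset

/-- The wreath product `R ≀ ℤ^k`. -/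
abbrev G (R : Type) [AddCommGroup R] (k : ℕ) := Wr R (Fin k → ℤ)

section

variable {Γ : Type} [Group Γ]

/-- The word length with respect to `S`: the least `n` such that `g` is a product of `n` elements of
`S ∪ S⁻¹`. -/
noncomputable def wordLength (S : Finset Γ) (g : Γ) : ℕ :=
  sInf {n | ∃ l : List Γ, l.length = n ∧ (∀ s ∈ l, s ∈ S ∨ s⁻¹ ∈ S) ∧ l.prod = g}

/-- The indices of the finite index normal subgroups `N` such that the images of `x` and `y` in
`Γ / N` are not conjugate. -/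
def sepIndices (x y : Γ) : Set ℕ :=
  {d | ∃ N : Subgroup Γ, ∃ _ : N.Normal, N.index ≠ 0 ∧ N.index = d ∧
    ¬ IsConj (QuotientGroup.mk x : Γ ⧸ N) (QuotientGroup.mk y : Γ ⧸ N)}

/-- `D(x, y)`. -/
noncomputable def D (x y : Γ) : ℕ := sInf (sepIndices x y)

/-- The numbers `D(x, y)` for non-conjugate `x, y` of length at most `n`. -/
def depths (S : Finset Γ) (n : ℕ) : Set ℕ :=
  {d | ∃ x y : Γ, wordLength S x ≤ n ∧ wordLength S y ≤ n ∧ ¬ IsConj x y ∧ d = D x y}

/-- The conjugacy depth function. -/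
noncomputable def Conj (S : Finset Γ) (n : ℕ) : ℕ := sSup (depths S n)

/-- The group is conjugacy separable and the sets of depths are bounded, so that the minimum `D(x, y)`
and the maximum `Conj S n` exist. -/
def WellDefined (S : Finset Γ) : Prop :=
  (∀ x y : Γ, ¬ IsConj x y → (sepIndices x y).Nonempty) ∧ ∀ n, BddAbove (depths S n)

end

/-- `f ≼ g`. -/
def Prec (f g : ℕ → ℝ) : Prop := ∃ C : ℕ, 0 < C ∧ ∀ n, f n ≤ C * g (C * n)

/-! ### Proofs -/

theorem length_spec {Γ : Type} [Group Γ] {S : Finset Γ}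
    (hS : Subgroup.closure (S : Set Γ) = ⊤) (g : Γ) : IsProd S (wordLength S g) g := by
  have h1 : {n | ∃ l : List Γ, l.length = n ∧ (∀ s ∈ l, s ∈ S ∨ s⁻¹ ∈ S) ∧ l.prod = g}.Nonempty := by
    have hg : g ∈ Subgroup.closure (S : Set Γ) := by rw [hS]; exact Subgroup.mem_top g
    rw [← Subgroup.mem_toSubmonoid, Subgroup.closure_toSubmonoid] at hg
    obtain ⟨l, hl, hl2⟩ := Submonoid.exists_list_of_mem_closure hg
    exact ⟨l.length, l, rfl, fun s hs => hl s hs, hl2⟩
  exact Nat.sInf_mem h1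

/-- The common part: a bound for each pair bounds everything. -/
theorem common {R : Type} [AddCommGroup R] (N : Norm' R) {k : ℕ} {S : Finset (G R k)}
    (hS : Subgroup.closure (S : Set (G R k)) = ⊤) :
    ∃ c : ℕ, 0 < c ∧ ∀ (M : ℕ → ℕ), (∀ n, 0 < n → ∃ (R' : Type) (_ : AddCommGroup R')
      (_ : Finite R') (r : R →+ R'), Nat.card R' = M n ∧
        ∀ a, N.ν a ≤ 2 * (c * n) → r a = 0 → a = 0) →
      WellDefined S ∧ ∀ n, Conj S n ≤ if n = 0 then 0 else
        M n ^ ((13 * (c * n)) ^ k) * (13 * (c * n)) ^ k := by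
  obtain ⟨c, hc0, hc⟩ := bd_of_prod N S
  refine ⟨c, hc0, fun M hM => ?_⟩
  have hlen : ∀ {n : ℕ} {g : G R k}, wordLength S g ≤ n → Bd N (c * n) g := fun {n g} h =>
    isProd_mono N hc h (length_spec hS g)
  have key : ∀ n, 0 < n → ∀ x y : G R k, wordLength S x ≤ n → wordLength S y ≤ n →
      ¬ IsConj x y → ∃ d ∈ Sep x y, d ≤ M n ^ ((13 * (c * n)) ^ k) * (13 * (c * n)) ^ k := by
    intro n hn x y hx hy hxy
    obtain ⟨R', i1, i2, r, h1, h2⟩ := hM n hn
    rw [← h1]
    exact sep_bound N (Nat.mul_pos hc0 hn) r h2 (hlen hx) (hlen hy) hxy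
  have hub : ∀ n, ∀ d ∈ depths S n, d ≤ if n = 0 then 0 else
      M n ^ ((13 * (c * n)) ^ k) * (13 * (c * n)) ^ k := by
    rintro n d ⟨x, y, hx, hy, hxy, rfl⟩
    by_cases hn : n = 0
    · exfalso
      apply hxy
      have h1 : ∀ g : G R k, wordLength S g ≤ n → g = 1 := by
        intro g hg
        obtain ⟨l, hl, -, hl2⟩ := length_spec hS g
        rw [hn, Nat.le_zero] at hg
        rw [hg, List.length_eq_zero_iff] at hl
        rw [← hl2, hl, List.prod_nil]
      rw [h1 x hx, h1 y hy]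
    · rw [if_neg hn]
      obtain ⟨d, hd1, hd2⟩ := key n (Nat.pos_of_ne_zero hn) x y hx hy hxy
      exact (Nat.sInf_le hd1).trans hd2
  refine ⟨⟨?_, fun n => ⟨_, hub n⟩⟩, fun n => csSup_le' (hub n)⟩
  intro x y hxy
  obtain ⟨d, hd, -⟩ := key (wordLength S x + wordLength S y + 1) (by omega) x y (by omega)
    (by omega) hxy
  exact ⟨d, hd⟩

/-- The trivial norm. -/
def norm0 (R : Type) [AddCommGroup R] : Norm' R where
  ν _ := 0
  zero := rfl
  add _ _ := le_rfl
  neg _ := rfl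

/-- The absolute value. -/
def normZ : Norm' ℤ where
  ν := Int.natAbs
  zero := rfl
  add := Int.natAbs_add_le
  neg := Int.natAbs_neg

theorem case_p {p k : ℕ} (hp : p.Prime) (hk : 0 < k) {S : Finset (G (ZMod p) k)}
    (hS : Subgroup.closure (S : Set (G (ZMod p) k)) = ⊤) :
    WellDefined S ∧ Prec (fun n => (Conj S n : ℝ)) (fun n => (2 : ℝ) ^ (n ^ k)) := by
  have : NeZero p := ⟨hp.ne_zero⟩
  obtain ⟨c, hc0, hc⟩ := common (norm0 (ZMod p)) hS
  obtain ⟨h1, h2⟩ := hc (fun _ => p) (fun n _ => ⟨ZMod p, inferInstance, inferInstance,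
    AddMonoidHom.id _, Nat.card_zmod p, fun a _ h => h⟩)
  refine ⟨h1, (p + 1) * 13 * c, by positivity, fun n => ?_⟩
  have h3 : Conj S n ≤ 2 ^ (((p + 1) * 13 * c * n) ^ k) := by
    refine (h2 n).trans ?_
    split_ifs with hn
    · exact Nat.zero_le _
    · set Q := (13 * (c * n)) ^ k with hQ
      have e1 : p ^ Q ≤ (2 ^ p) ^ Q := Nat.pow_le_pow_left Nat.lt_two_pow_self.le Q
      have e2 : Q ≤ 2 ^ Q := Nat.lt_two_pow_self.le
      have e3 : (p + 1) * Q ≤ ((p + 1) * 13 * c * n) ^ k := by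
        have e4 : ((p + 1) * 13 * c * n) ^ k = (p + 1) ^ k * Q := by
          rw [hQ, ← mul_pow]
          congr 1
          ring
        rw [e4]
        exact Nat.mul_le_mul_right _ (Nat.le_self_pow (by omega) _)
      calc p ^ Q * Q ≤ (2 ^ p) ^ Q * 2 ^ Q := Nat.mul_le_mul e1 e2
        _ = 2 ^ ((p + 1) * Q) := by rw [← pow_mul, ← pow_add]; congr 1; ring
        _ ≤ _ := Nat.pow_le_pow_right (by norm_num) e3
  have h4 : (Conj S n : ℝ) ≤ (2 : ℝ) ^ (((p + 1) * 13 * c * n) ^ k) := by exact_mod_cast h3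
  refine h4.trans (le_mul_of_one_le_left (by positivity) ?_)
  exact_mod_cast Nat.one_le_iff_ne_zero.2 (by positivity)

theorem case_Z {k : ℕ} (hk : 0 < k) {S : Finset (G ℤ k)}
    (hS : Subgroup.closure (S : Set (G ℤ k)) = ⊤) :
    WellDefined S ∧ Prec (fun n => (Conj S n : ℝ)) (fun n => (n : ℝ) ^ (n ^ k)) ∧
      Prec (fun n => (Conj S n : ℝ)) (fun n => Real.log n ^ (n ^ (2 * k))) := by
  obtain ⟨c, hc0, hc⟩ := common normZ hS
  obtain ⟨h1, h2⟩ := hc (fun n => 2 * (c * n) + 1) (fun n hn => ⟨ZMod (2 * (c * n) + 1),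
    inferInstance, inferInstance, Int.castAddHom _, Nat.card_zmod _, by
      intro a ha h
      have h3 : ((2 * (c * n) + 1 : ℕ) : ℤ) ∣ a := (ZMod.intCast_zmod_eq_zero_iff_dvd _ _).1 h
      apply Int.eq_zero_of_abs_lt_dvd h3
      have h4 : a.natAbs ≤ 2 * (c * n) := ha
      rw [Int.abs_eq_natAbs]
      omega⟩)
  have h3 : ∀ n, Conj S n ≤ (13 * c * n) ^ ((13 * c * n) ^ k) ∧ (n = 0 → Conj S n = 0) := by
    intro n
    refine ⟨(h2 n).trans ?_, fun hn => ?_⟩
    · split_ifs with hn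
      · exact Nat.zero_le _
      · have e0 : 13 * (c * n) = 13 * c * n := by ring
        rw [e0]
        set Q := (13 * c * n) ^ k with hQ
        have e2 : Q ≤ 2 ^ Q := Nat.lt_two_pow_self.le
        have e3 : 1 ≤ c * n := Nat.mul_pos hc0 (Nat.pos_of_ne_zero hn)
        calc (2 * (c * n) + 1) ^ Q * Q ≤ (2 * (c * n) + 1) ^ Q * 2 ^ Q :=
              Nat.mul_le_mul_left _ e2
          _ = ((2 * (c * n) + 1) * 2) ^ Q := by rw [mul_pow]
          _ ≤ (13 * c * n) ^ Q := Nat.pow_le_pow_left (by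
              rw [mul_assoc 13 c n]
              omega) Q
    · have := h2 n
      rw [if_pos hn] at this
      omega
  refine ⟨h1, ⟨13 * c, by positivity, fun n => ?_⟩, ⟨16 * c, by positivity, fun n => ?_⟩⟩
  · have h4 : (Conj S n : ℝ) ≤ ((13 * c : ℕ) * n : ℕ) ^ ((13 * c * n) ^ k) := by
      exact_mod_cast (h3 n).1
    refine h4.trans ?_
    have h5 : (1 : ℝ) ≤ ((13 * c : ℕ) : ℝ) := by
      exact_mod_cast Nat.one_le_iff_ne_zero.2 (by positivity)
    refine le_trans ?_ (le_mul_of_one_le_left (by positivity) h5)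
    push_cast
    exact le_rfl
  · rcases Nat.eq_zero_or_pos n with hn | hn
    · have h4 := (h3 n).2 hn
      change ((Conj S n : ℕ) : ℝ) ≤ ((16 * c : ℕ) : ℝ) *
        Real.log ((16 * c * n : ℕ) : ℝ) ^ ((16 * c * n) ^ (2 * k))
      have h5 : (16 * c * n) ^ (2 * k) = 0 := by
        rw [hn, mul_zero]
        exact zero_pow (by omega)
      rw [h4, h5, pow_zero, Nat.cast_zero]
      positivity
    · have h4 : (Conj S n : ℝ) ≤ ((13 * c * n : ℕ) : ℝ) ^ ((13 * c * n) ^ k) := by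
        exact_mod_cast (h3 n).1
      set a : ℕ := 13 * c * n with ha
      have hcn : 1 ≤ c * n := Nat.mul_pos hc0 hn
      have h5 : ((a : ℕ) : ℝ) ≤ Real.exp 1 ^ a := by
        rw [← Real.exp_nat_mul, mul_one]
        have := Real.add_one_le_exp (a : ℝ)
        linarith
      have h6 : ((a : ℕ) : ℝ) ^ (a ^ k) ≤ Real.exp 1 ^ (a ^ (k + 1)) := by
        calc ((a : ℕ) : ℝ) ^ (a ^ k) ≤ (Real.exp 1 ^ a) ^ (a ^ k) :=
              pow_le_pow_left₀ (Nat.cast_nonneg _) h5 _
          _ = _ := by rw [← pow_mul]; congr 1; ring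
      set b : ℕ := 16 * c * n with hb
      have hab : a ≤ b := by
        rw [ha, hb, mul_assoc, mul_assoc]
        omega
      have h7 : a ^ (k + 1) ≤ b ^ (2 * k) := by
        calc a ^ (k + 1) ≤ b ^ (k + 1) := Nat.pow_le_pow_left hab _
          _ ≤ b ^ (2 * k) := Nat.pow_le_pow_right (by
              rw [hb, mul_assoc]
              omega) (by omega)
      have he1 : (1 : ℝ) ≤ Real.exp 1 := Real.one_le_exp zero_le_one
      have h8 : Real.exp 1 ≤ Real.log b := by
        have h9 : Real.log 16 ≤ Real.log b := by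
          apply Real.log_le_log (by norm_num)
          have : 16 ≤ b := by
            rw [hb, mul_assoc]
            omega
          exact_mod_cast this
        have h10 : Real.log 16 = 4 * Real.log 2 := by
          have : (16 : ℝ) = 2 ^ (4 : ℕ) := by norm_num
          rw [this, Real.log_pow]
          norm_num
        have h11 := Real.log_two_gt_d9
        have h12 := Real.exp_one_lt_d9
        linarith
      have h9 : (Conj S n : ℝ) ≤ Real.log b ^ (b ^ (2 * k)) :=
        h4.trans (h6.trans ((pow_le_pow_right₀ he1 h7).trans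
          (pow_le_pow_left₀ (Real.exp_pos 1).le h8 _)))
      have h10 : (1 : ℝ) ≤ ((16 * c : ℕ) : ℝ) := by
        exact_mod_cast Nat.one_le_iff_ne_zero.2 (by positivity)
      refine h9.trans (le_mul_of_one_le_left ?_ h10)
      exact pow_nonneg (le_trans (Real.exp_pos 1).le h8) _

/-- **Q1 and Q2.** For all `k ≥ 1` and all finite generating sets: `Conj_{F_p ≀ ℤ^k}(n) ≼ 2^(n^k)`
for all primes `p` and `Conj_{ℤ ≀ ℤ^k}(n) ≼ log(n)^(n^(2k))`; for `ℤ ≀ ℤ^k` also the stronger bound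
`n^(n^k)` is proved. -/
theorem result (k : ℕ) (hk : 0 < k) :
    (∀ p : ℕ, p.Prime → ∀ S : Finset (G (ZMod p) k),
      Subgroup.closure (S : Set (G (ZMod p) k)) = ⊤ →
      WellDefined S ∧ Prec (fun n => (Conj S n : ℝ)) (fun n => (2 : ℝ) ^ (n ^ k))) ∧
    (∀ S : Finset (G ℤ k), Subgroup.closure (S : Set (G ℤ k)) = ⊤ →
      WellDefined S ∧ Prec (fun n => (Conj S n : ℝ)) (fun n => (n : ℝ) ^ (n ^ k)) ∧
      Prec (fun n => (Conj S n : ℝ)) (fun n => Real.log n ^ (n ^ (2 * k)))) :=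
  ⟨fun _ hp _ hS => case_p hp hk hS, fun _ hS => case_Z hk hS⟩

end Pool.Agent.Results.MP_3fb3e0_al.DepthBounds
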